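import Pool.Agent.H5.FR2.Stmts

/-!
# Project URB, module PRT: the perturbation which decreases the capacity functional
-/

set_option autoImplicit false

namespace Pool.Agent.H5.FR2

open Finset Pool.Agent.H5.FR Pool.Agent.H80
open scoped ComplexOrder

private lemma prt_exp {y : ℝ} (hy : y ≤ 1 / 2) : Real.exp (-y - y ^ 2) ≤ 1 - y := by
  rcases le_or_gt 0 y with h | h
  · have h1 : 1 + (y + y ^ 2) + (y + y ^ 2) ^ 2 / 2 ≤ Real.exp (y + y ^ 2) :=
      Real.quadratic_le_exp_of_nonneg (by positivity)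
    have h2 : 1 ≤ (1 - y) * Real.exp (y + y ^ 2) := by
      have h3 : (1 - y) * (1 + (y + y ^ 2) + (y + y ^ 2) ^ 2 / 2) ≤
          (1 - y) * Real.exp (y + y ^ 2) := mul_le_mul_of_nonneg_left h1 (by linarith)
      have h4 : (1 - y) * (1 + (y + y ^ 2) + (y + y ^ 2) ^ 2 / 2) =
          1 + y ^ 2 / 2 * (1 - y - y ^ 2 - y ^ 3) := by ring
      have h5 : y ^ 2 ≤ 1 / 4 := by nlinarith
      have h6 : y ^ 3 ≤ 1 / 8 := by nlinarith [mul_nonneg h h]
      have h7 : 0 ≤ y ^ 2 / 2 * (1 - y - y ^ 2 - y ^ 3) :=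
        mul_nonneg (by positivity) (by linarith)
      linarith
    rw [show -y - y ^ 2 = -(y + y ^ 2) by ring, Real.exp_neg, inv_le_iff_one_le_mul₀ (Real.exp_pos _)]
    exact h2
  · have hp : 0 < 1 - y := by linarith
    have h1 : 1 - (1 - y)⁻¹ ≤ Real.log (1 - y) := Real.one_sub_inv_le_log_of_pos hp
    have h2 : -y - y ^ 2 ≤ 1 - (1 - y)⁻¹ := by
      have h3 : 1 - (1 - y)⁻¹ = -y / (1 - y) := by field_simp; ring
      rw [h3, le_div_iff₀ hp]
      nlinarith [pow_pos (neg_pos.2 h) 3]
    calc Real.exp (-y - y ^ 2) ≤ Real.exp (Real.log (1 - y)) := Real.exp_le_exp.2 (h2.trans h1)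
      _ = 1 - y := Real.exp_log hp

theorem prt_thm : PRTStmt := by
  intro X _ _ _ R hR htr
  set x : ℝ := (Fintype.card X : ℝ) with hx
  have hx1 : 1 ≤ x := by
    rw [hx]; exact_mod_cast Fintype.card_pos
  have hx0 : 0 < x := by linarith
  set ρ : X → ℝ := hR.isHermitian.eigenvalues with hρ
  have hρ0 : ∀ i, 0 ≤ ρ i := fun i => hR.eigenvalues_nonneg i
  set U : Matrix X X ℂ := (hR.isHermitian.eigenvectorUnitary : Matrix X X ℂ) with hU
  have hUU : star U * U = 1 := Unitary.coe_star_mul_self _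
  have hUU' : U * star U = 1 := Unitary.coe_mul_star_self _
  have hspec : R = U * Matrix.diagonal (fun i => (ρ i : ℂ)) * star U := by
    conv_lhs => rw [hR.isHermitian.spectral_theorem, Unitary.conjStarAlgAut_apply]
    rfl
  have hsum : ∑ i, ρ i = 1 := by
    have h1 := hR.isHermitian.trace_eq_sum_eigenvalues
    rw [htr] at h1
    have h2 : ((∑ i, ρ i : ℝ) : ℂ) = 1 := by
      rw [h1]; push_cast; rfl
    exact_mod_cast h2
  have htr2 : tr2 R = ∑ i, ρ i ^ 2 := by
    have h1 : (R * R).trace = ((∑ i, ρ i ^ 2 : ℝ) : ℂ) := by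
      have h2 : R * R = U * (Matrix.diagonal (fun i => (ρ i : ℂ)) *
          Matrix.diagonal (fun i => (ρ i : ℂ))) * star U := by
        rw [hspec]
        calc U * Matrix.diagonal (fun i => (ρ i : ℂ)) * star U *
            (U * Matrix.diagonal (fun i => (ρ i : ℂ)) * star U)
            = U * Matrix.diagonal (fun i => (ρ i : ℂ)) * (star U * U) *
              Matrix.diagonal (fun i => (ρ i : ℂ)) * star U := by noncomm_ring
          _ = _ := by rw [hUU, Matrix.mul_one]; noncomm_ring
      rw [h2, Matrix.trace_mul_comm, ← Matrix.mul_assoc, hUU, Matrix.one_mul,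
        Matrix.diagonal_mul_diagonal, Matrix.trace_diagonal]
      push_cast
      exact Finset.sum_congr rfl fun i _ => by ring
    rw [tr2, h1, Complex.ofReal_re]
  have hρ1 : ∀ i, ρ i ≤ 1 := by
    intro i
    rw [← hsum]
    exact Finset.single_le_sum (fun j _ => hρ0 j) (Finset.mem_univ i)
  set s : X → ℝ := fun i => √(1 + 1 / (2 * x) - ρ i / 2) with hs
  have hspos : ∀ i, 0 < 1 + 1 / (2 * x) - ρ i / 2 := by
    intro i
    have := hρ1 i
    have : 0 < 1 / (2 * x) := by positivity
    linarith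
  have hs2 : ∀ i, s i ^ 2 = 1 + 1 / (2 * x) - ρ i / 2 := fun i => Real.sq_sqrt (hspos i).le
  have hs0 : ∀ i, 0 < s i := fun i => Real.sqrt_pos.2 (hspos i)
  set D : Matrix X X ℂ := Matrix.diagonal (fun i => (s i : ℂ)) with hD
  have hDstar : D.conjTranspose = D := by
    rw [hD, Matrix.diagonal_conjTranspose]
    congr 1
    funext i
    simp
  refine ⟨D * star U, ?_, ?_, ?_⟩
  · have h1 : IsUnit D := by
      rw [Matrix.isUnit_iff_isUnit_det, hD, Matrix.det_diagonal]
      refine isUnit_iff_ne_zero.2 (Finset.prod_ne_zero_iff.2 fun i _ => ?_)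
      exact_mod_cast (hs0 i).ne'
    have h2 : IsUnit (star U) := by
      exact IsUnit.of_mul_eq_one U hUU
    exact h1.mul h2
  · have h1 : (D * star U * R * (D * star U).conjTranspose).trace =
        ((∑ i, s i ^ 2 * ρ i : ℝ) : ℂ) := by
      have h2 : D * star U * R * (D * star U).conjTranspose =
          D * Matrix.diagonal (fun i => (ρ i : ℂ)) * D := by
        rw [Matrix.conjTranspose_mul, hDstar, hspec]
        have h3 : (star U).conjTranspose = U := by
          rw [Matrix.star_eq_conjTranspose, Matrix.conjTranspose_conjTranspose]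
        rw [h3]
        calc D * star U * (U * Matrix.diagonal (fun i => (ρ i : ℂ)) * star U) * (U * D)
            = D * (star U * U) * Matrix.diagonal (fun i => (ρ i : ℂ)) * (star U * U) * D := by
              noncomm_ring
          _ = _ := by rw [hUU, Matrix.mul_one, Matrix.mul_one]
      rw [h2, hD, Matrix.diagonal_mul_diagonal, Matrix.diagonal_mul_diagonal,
        Matrix.trace_diagonal]
      push_cast
      exact Finset.sum_congr rfl fun i _ => by ring
    rw [tr1, h1, Complex.ofReal_re, htr2]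
    have h4 : ∑ i, s i ^ 2 * ρ i = (1 + 1 / (2 * x)) * ∑ i, ρ i - (∑ i, ρ i ^ 2) / 2 := by
      rw [Finset.mul_sum, Finset.sum_div, ← Finset.sum_sub_distrib]
      exact Finset.sum_congr rfl fun i _ => by rw [hs2]; ring
    rw [h4, hsum]
    field_simp
    ring
  · have h1 : ‖(D * star U).det‖ ^ 2 = ∏ i, s i ^ 2 := by
      have hdet : ‖(star U).det‖ = 1 := by
        have h2 : (star U).det * U.det = 1 := by rw [← Matrix.det_mul, hUU, Matrix.det_one]
        have h3 : (star U).det = star U.det := by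
          rw [Matrix.star_eq_conjTranspose, Matrix.det_conjTranspose]
        have h4 : ‖(star U).det‖ = ‖U.det‖ := by rw [h3, norm_star]
        have h5 : ‖(star U).det‖ * ‖U.det‖ = 1 := by rw [← norm_mul, h2, norm_one]
        rw [← h4] at h5
        nlinarith [norm_nonneg (star U).det]
      rw [Matrix.det_mul, norm_mul, hdet, mul_one, hD, Matrix.det_diagonal, norm_prod,
        ← Finset.prod_pow]
      refine Finset.prod_congr rfl fun i _ => ?_
      rw [Complex.norm_real, Real.norm_eq_abs, sq_abs]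
    rw [h1]
    set y : X → ℝ := fun i => ρ i / 2 - 1 / (2 * x) with hy
    have hy1 : ∀ i, y i ≤ 1 / 2 := by
      intro i
      have := hρ1 i
      have h2 : 0 < 1 / (2 * x) := by positivity
      simp only [hy]
      linarith
    have hsy : ∀ i, s i ^ 2 = 1 - y i := by
      intro i; rw [hs2]; simp only [hy]; ring
    have h2 : ∏ i, Real.exp (-y i - y i ^ 2) ≤ ∏ i, s i ^ 2 := by
      refine Finset.prod_le_prod (fun i _ => (Real.exp_pos _).le) fun i _ => ?_
      rw [hsy]
      exact prt_exp (hy1 i)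
    refine le_trans (le_of_eq ?_) h2
    rw [← Real.exp_sum]
    congr 1
    rw [htr2]
    have hcard : ∑ _i : X, (1 : ℝ) = x := by simp [hx]
    have h3 : ∑ i, (-y i - y i ^ 2) =
        -(∑ i, ρ i) / 2 + (1 / (2 * x)) * ∑ _i : X, (1 : ℝ) - (∑ i, ρ i ^ 2) / 4 +
          (1 / (2 * x)) * (∑ i, ρ i) - (1 / (2 * x)) ^ 2 * ∑ _i : X, (1 : ℝ) := by
      simp only [hy, Finset.mul_sum, Finset.sum_div, ← Finset.sum_neg_distrib,
        ← Finset.sum_add_distrib, ← Finset.sum_sub_distrib]
      exact Finset.sum_congr rfl fun i _ => by ring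
    rw [h3, hsum, hcard]
    field_simp
    ring

end Pool.Agent.H5.FR2
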