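import Pool.Agent.H5.FR2.Stmts

/-!
# Project URB, module TTN: the numerical inequality for tensor trains
-/

set_option autoImplicit false

namespace Pool.Agent.H5.FR2

open Finset Pool.Agent.H5.FR Pool.Agent.H80

/-- the pair `pq` for sequences indexed by the natural numbers -/
private noncomputable def ttn_pq (W : ℝ) (ξ η : ℕ → ℝ) (t : ℕ) : ℝ × ℝ :=
  pq W t (fun i => ξ i) (fun i => η i)

private lemma ttn_pq_zero (W : ℝ) (ξ η : ℕ → ℝ) : ttn_pq W ξ η 0 = (1, 1) := rfl

private lemma ttn_pq_succ (W : ℝ) (ξ η : ℕ → ℝ) (t : ℕ) : ttn_pq W ξ η (t + 1) =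
    (W ^ 2 * ξ t * (ttn_pq W ξ η t).1 + W * η t * (ttn_pq W ξ η t).2,
      W ^ 2 * η t * (ttn_pq W ξ η t).2 + W * ξ t * (ttn_pq W ξ η t).1) := rfl

private lemma ttn_core (n : ℕ) (W E e : ℝ) (hW : 0 < W) (hE : 1 ≤ E) (he : 0 ≤ e)
    (x y ξ η : ℕ → ℝ)
    (hx : ∀ i, 0 < x i) (hy : ∀ i, 0 < y i) (hξ : ∀ i, 0 ≤ ξ i) (hη : ∀ i, 0 ≤ η i)
    (hxξ : ∀ i, i ≤ n → x i * ξ i ≤ 1 + e) (hyη : ∀ i, i ≤ n → y i * η i ≤ 1 + e)
    (hWE : 32 * ((n : ℝ) + 1) * E ≤ W)
    (hB1 : ∏ i ∈ range (n + 1), y i ≤ ∏ i ∈ range (n + 1), x i)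
    (hB : ∀ s t : ℕ, s ≤ t → t ≤ n + 1 → (∏ i ∈ range t, y i) * ∏ i ∈ range s, x i ≤
      E * ((∏ i ∈ range t, x i) * ∏ i ∈ range s, y i)) :
    (ξ n * (ttn_pq W ξ η n).1 + η n * (ttn_pq W ξ η n).2) * ∏ i ∈ range (n + 1), y i ≤
      (1 + e) ^ (n + 1) * (17 / 8) * (W ^ n) ^ 2 := by
  -- notation
  set X : ℕ → ℝ := fun t => ∏ i ∈ range t, x i with hX
  set Y : ℕ → ℝ := fun t => ∏ i ∈ range t, y i with hY
  have hXp : ∀ t, 0 < X t := fun t => Finset.prod_pos fun i _ => hx i
  have hYp : ∀ t, 0 < Y t := fun t => Finset.prod_pos fun i _ => hy i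
  have hXs : ∀ t, X (t + 1) = X t * x t := fun t => Finset.prod_range_succ _ _
  have hYs : ∀ t, Y (t + 1) = Y t * y t := fun t => Finset.prod_range_succ _ _
  set p : ℕ → ℝ := fun t => (ttn_pq W ξ η t).1 with hp
  set q : ℕ → ℝ := fun t => (ttn_pq W ξ η t).2 with hq
  have hps : ∀ t, p (t + 1) = W ^ 2 * ξ t * p t + W * η t * q t := fun t => rfl
  have hqs : ∀ t, q (t + 1) = W ^ 2 * η t * q t + W * ξ t * p t := fun t => rfl
  have hp0 : p 0 = 1 := rfl
  have hq0 : q 0 = 1 := rfl
  have hpq : ∀ t, 0 ≤ p t ∧ 0 ≤ q t := by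
    intro t
    induction t with
    | zero => rw [hp0, hq0]; exact ⟨zero_le_one, zero_le_one⟩
    | succ t ih =>
      obtain ⟨h1, h2⟩ := ih
      rw [hps, hqs]
      have := hξ t
      have := hη t
      exact ⟨by positivity, by positivity⟩
  set c : ℝ := (1 + e) * W ^ 2 with hc
  have hcp : 0 < c := by positivity
  set a : ℕ → ℝ := fun t => p t * X t / c ^ t with ha
  set b : ℕ → ℝ := fun t => q t * Y t / c ^ t with hb
  have ha0 : ∀ t, 0 ≤ a t := fun t => by
    have := (hpq t).1; have := (hXp t).le; simp only [ha]; positivity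
  have hb0 : ∀ t, 0 ≤ b t := fun t => by
    have := (hpq t).2; have := (hYp t).le; simp only [hb]; positivity
  -- recursion
  have harec : ∀ t, t ≤ n → a (t + 1) ≤ a t + b t * (X (t + 1) / Y (t + 1)) / W := by
    intro t ht
    have h1 : a (t + 1) = (x t * ξ t * W ^ 2 * (p t * X t) +
        (η t * y t) * W * (q t * Y t) * (X (t + 1) / Y (t + 1))) / c ^ (t + 1) := by
      simp only [ha]
      rw [hps, hXs, hYs]
      have := (hYp t).ne'
      have := (hy t).ne'
      field_simp
    have h2 : x t * ξ t * W ^ 2 * (p t * X t) ≤ c * (p t * X t) := by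
      have := hxξ t ht
      have h3 : 0 ≤ p t * X t := mul_nonneg (hpq t).1 (hXp t).le
      have h4 : x t * ξ t * W ^ 2 ≤ c := by
        rw [hc]; exact mul_le_mul_of_nonneg_right this (by positivity)
      exact mul_le_mul_of_nonneg_right h4 h3
    have h3 : (η t * y t) * W * (q t * Y t) * (X (t + 1) / Y (t + 1)) ≤
        (c / W) * (q t * Y t) * (X (t + 1) / Y (t + 1)) := by
      have h4 : 0 ≤ q t * Y t := mul_nonneg (hpq t).2 (hYp t).le
      have h5 : 0 ≤ X (t + 1) / Y (t + 1) := div_nonneg (hXp _).le (hYp _).le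
      have h6 : (η t * y t) * W ≤ c / W := by
        rw [hc, show (1 + e) * W ^ 2 / W = (1 + e) * W by field_simp]
        have := hyη t ht
        exact mul_le_mul_of_nonneg_right (by linarith [mul_comm (η t) (y t)]) hW.le
      exact mul_le_mul_of_nonneg_right (mul_le_mul_of_nonneg_right h6 h4) h5
    have h4 : a t + b t * (X (t + 1) / Y (t + 1)) / W = (c * (p t * X t) +
        (c / W) * (q t * Y t) * (X (t + 1) / Y (t + 1))) / c ^ (t + 1) := by
      simp only [ha, hb]
      rw [pow_succ]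
      field_simp
    rw [h1, h4]
    gcongr
  have hbrec : ∀ t, t ≤ n → b (t + 1) ≤ b t + a t * (Y (t + 1) / X (t + 1)) / W := by
    intro t ht
    have h1 : b (t + 1) = (y t * η t * W ^ 2 * (q t * Y t) +
        (ξ t * x t) * W * (p t * X t) * (Y (t + 1) / X (t + 1))) / c ^ (t + 1) := by
      simp only [hb]
      rw [hqs, hXs, hYs]
      have := (hXp t).ne'
      have := (hx t).ne'
      field_simp
    have h2 : y t * η t * W ^ 2 * (q t * Y t) ≤ c * (q t * Y t) := by
      have := hyη t ht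
      have h3 : 0 ≤ q t * Y t := mul_nonneg (hpq t).2 (hYp t).le
      have h4 : y t * η t * W ^ 2 ≤ c := by
        rw [hc]; exact mul_le_mul_of_nonneg_right this (by positivity)
      exact mul_le_mul_of_nonneg_right h4 h3
    have h3 : (ξ t * x t) * W * (p t * X t) * (Y (t + 1) / X (t + 1)) ≤
        (c / W) * (p t * X t) * (Y (t + 1) / X (t + 1)) := by
      have h4 : 0 ≤ p t * X t := mul_nonneg (hpq t).1 (hXp t).le
      have h5 : 0 ≤ Y (t + 1) / X (t + 1) := div_nonneg (hYp _).le (hXp _).le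
      have h6 : (ξ t * x t) * W ≤ c / W := by
        rw [hc, show (1 + e) * W ^ 2 / W = (1 + e) * W by field_simp]
        have := hxξ t ht
        exact mul_le_mul_of_nonneg_right (by linarith [mul_comm (ξ t) (x t)]) hW.le
      exact mul_le_mul_of_nonneg_right (mul_le_mul_of_nonneg_right h6 h4) h5
    have h4 : b t + a t * (Y (t + 1) / X (t + 1)) / W = (c * (q t * Y t) +
        (c / W) * (p t * X t) * (Y (t + 1) / X (t + 1))) / c ^ (t + 1) := by
      simp only [ha, hb]
      rw [pow_succ]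
      field_simp
    rw [h1, h4]
    gcongr
  -- ratios
  have hr : ∀ s t, s ≤ t → t ≤ n + 1 → X s / Y s ≤ E * (X t / Y t) := by
    intro s t hst ht
    have h1 := hB s t hst ht
    rw [← mul_div_assoc, div_le_div_iff₀ (hYp s) (hYp t)]
    calc X s * Y t = Y t * X s := mul_comm _ _
      _ ≤ E * (X t * Y s) := h1
      _ = E * X t * Y s := by ring
  have hE0 : 0 < E := by linarith
  have hEW : E / W ≤ 1 / (32 * ((n : ℝ) + 1)) := by
    rw [div_le_div_iff₀ hW (by positivity)]
    linarith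
  -- the main induction
  have hmain : ∀ t, t ≤ n → b t ≤ 1 + 2 * t * (E / W) ∧
      a t ≤ 1 + 2 / W * ∑ s ∈ range t, X (s + 1) / Y (s + 1) := by
    intro t
    induction t with
    | zero =>
      intro _
      simp only [ha, hb, hp0, hq0, hX, hY]
      simp
    | succ t ih =>
      intro ht
      obtain ⟨h1, h2⟩ := ih (by omega)
      have htn : (t : ℝ) + 1 ≤ n := by exact_mod_cast ht
      have ht0 : (0 : ℝ) ≤ t := Nat.cast_nonneg t
      have hbt : b t ≤ 2 := by
        have h3 : 2 * (t : ℝ) * (E / W) ≤ 2 * t * (1 / (32 * ((n : ℝ) + 1))) := by gcongr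
        have h4 : 2 * (t : ℝ) * (1 / (32 * ((n : ℝ) + 1))) ≤ 1 := by
          rw [mul_one_div, div_le_one (by positivity)]
          linarith
        linarith
      have hat : a t * (Y (t + 1) / X (t + 1)) ≤ 2 * E := by
        have h3 : a t * (Y (t + 1) / X (t + 1)) ≤
            (1 + 2 / W * ∑ s ∈ range t, X (s + 1) / Y (s + 1)) * (Y (t + 1) / X (t + 1)) :=
          mul_le_mul_of_nonneg_right h2 (div_nonneg (hYp _).le (hXp _).le)
        have h4 : Y (t + 1) / X (t + 1) ≤ E := by
          have h5 := hr 0 (t + 1) (by omega) (by omega)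
          have h6 : X 0 / Y 0 = 1 := by simp [hX, hY]
          rw [h6] at h5
          rw [div_le_iff₀ (hXp _)]
          rw [← mul_div_assoc, le_div_iff₀ (hYp _)] at h5
          linarith
        have h5 : ∀ s ∈ range t, X (s + 1) / Y (s + 1) * (Y (t + 1) / X (t + 1)) ≤ E := by
          intro s hs
          have hst : s + 1 ≤ t + 1 := by have := Finset.mem_range.1 hs; omega
          have h6 := hr (s + 1) (t + 1) hst (by omega)
          calc X (s + 1) / Y (s + 1) * (Y (t + 1) / X (t + 1))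
              ≤ E * (X (t + 1) / Y (t + 1)) * (Y (t + 1) / X (t + 1)) :=
                mul_le_mul_of_nonneg_right h6 (div_nonneg (hYp _).le (hXp _).le)
            _ = E := by
                have := (hXp (t + 1)).ne'
                have := (hYp (t + 1)).ne'
                field_simp
        have h6 : (∑ s ∈ range t, X (s + 1) / Y (s + 1)) * (Y (t + 1) / X (t + 1)) ≤ t * E := by
          rw [Finset.sum_mul]
          calc ∑ s ∈ range t, X (s + 1) / Y (s + 1) * (Y (t + 1) / X (t + 1))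
              ≤ ∑ _s ∈ range t, E := Finset.sum_le_sum h5
            _ = t * E := by simp
        have h7 : 2 / W * (t * E) ≤ E := by
          have h8 : 2 / W * (t * E) = 2 * t * (E / W) := by ring
          have h9 : 2 * (t : ℝ) * (E / W) ≤ 2 * t * (1 / (32 * ((n : ℝ) + 1))) := by gcongr
          have h10 : 2 * (t : ℝ) * (1 / (32 * ((n : ℝ) + 1))) ≤ 1 := by
            rw [mul_one_div, div_le_one (by positivity)]
            linarith
          linarith
        have h8 : (1 + 2 / W * ∑ s ∈ range t, X (s + 1) / Y (s + 1)) * (Y (t + 1) / X (t + 1)) =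
            Y (t + 1) / X (t + 1) +
              2 / W * ((∑ s ∈ range t, X (s + 1) / Y (s + 1)) * (Y (t + 1) / X (t + 1))) := by ring
        have h9 : 2 / W * ((∑ s ∈ range t, X (s + 1) / Y (s + 1)) * (Y (t + 1) / X (t + 1))) ≤
            2 / W * (t * E) := mul_le_mul_of_nonneg_left h6 (by positivity)
        linarith
      constructor
      · have h3 := hbrec t (by omega)
        have h4 : a t * (Y (t + 1) / X (t + 1)) / W ≤ 2 * E / W := by gcongr
        have h5 : 2 * E / W = 2 * (E / W) := by ring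
        push_cast
        nlinarith
      · have h3 := harec t (by omega)
        have h4 : b t * (X (t + 1) / Y (t + 1)) / W ≤ 2 * (X (t + 1) / Y (t + 1)) / W := by
          have : 0 ≤ X (t + 1) / Y (t + 1) := div_nonneg (hXp _).le (hYp _).le
          gcongr
        rw [Finset.sum_range_succ, mul_add]
        have h5 : 2 * (X (t + 1) / Y (t + 1)) / W = 2 / W * (X (t + 1) / Y (t + 1)) := by ring
        linarith
  -- conclusion
  obtain ⟨h1, h2⟩ := hmain n le_rfl
  have hn0 : (0 : ℝ) ≤ n := Nat.cast_nonneg n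
  have hsmall : 2 * (n : ℝ) * (E / W) ≤ 1 / 16 := by
    have h9 : 2 * (n : ℝ) * (E / W) ≤ 2 * n * (1 / (32 * ((n : ℝ) + 1))) := by gcongr
    have h10 : 2 * (n : ℝ) * (1 / (32 * ((n : ℝ) + 1))) ≤ 1 / 16 := by
      rw [mul_one_div, div_le_div_iff₀ (by positivity) (by norm_num)]
      linarith
    linarith
  have hbn : b n ≤ 1 + 1 / 16 := by linarith
  have han : a n * (Y (n + 1) / X (n + 1)) ≤ 1 + 1 / 16 := by
    have h3 : a n * (Y (n + 1) / X (n + 1)) ≤
        (1 + 2 / W * ∑ s ∈ range n, X (s + 1) / Y (s + 1)) * (Y (n + 1) / X (n + 1)) :=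
      mul_le_mul_of_nonneg_right h2 (div_nonneg (hYp _).le (hXp _).le)
    have h4 : Y (n + 1) / X (n + 1) ≤ 1 := by
      rw [div_le_one (hXp _)]; exact hB1
    have h5 : ∀ s ∈ range n, X (s + 1) / Y (s + 1) * (Y (n + 1) / X (n + 1)) ≤ E := by
      intro s hs
      have hst : s + 1 ≤ n + 1 := by have := Finset.mem_range.1 hs; omega
      have h6 := hr (s + 1) (n + 1) hst le_rfl
      calc X (s + 1) / Y (s + 1) * (Y (n + 1) / X (n + 1))
          ≤ E * (X (n + 1) / Y (n + 1)) * (Y (n + 1) / X (n + 1)) :=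
            mul_le_mul_of_nonneg_right h6 (div_nonneg (hYp _).le (hXp _).le)
        _ = E := by
            have := (hXp (n + 1)).ne'
            have := (hYp (n + 1)).ne'
            field_simp
    have h6 : (∑ s ∈ range n, X (s + 1) / Y (s + 1)) * (Y (n + 1) / X (n + 1)) ≤ n * E := by
      rw [Finset.sum_mul]
      calc ∑ s ∈ range n, X (s + 1) / Y (s + 1) * (Y (n + 1) / X (n + 1))
          ≤ ∑ _s ∈ range n, E := Finset.sum_le_sum h5
        _ = n * E := by simp
    have h7 : 2 / W * (n * E) ≤ 1 / 16 := by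
      have h8 : 2 / W * (n * E) = 2 * n * (E / W) := by ring
      linarith
    have h8 : (1 + 2 / W * ∑ s ∈ range n, X (s + 1) / Y (s + 1)) * (Y (n + 1) / X (n + 1)) =
        Y (n + 1) / X (n + 1) +
          2 / W * ((∑ s ∈ range n, X (s + 1) / Y (s + 1)) * (Y (n + 1) / X (n + 1))) := by ring
    have h9 : 2 / W * ((∑ s ∈ range n, X (s + 1) / Y (s + 1)) * (Y (n + 1) / X (n + 1))) ≤
        2 / W * (n * E) := mul_le_mul_of_nonneg_left h6 (by positivity)
    linarith
  have hpn : p n * X n = a n * c ^ n := by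
    simp only [ha]; field_simp
  have hqn : q n * Y n = b n * c ^ n := by
    simp only [hb]; field_simp
  have h3 : ξ n * p n * Y (n + 1) ≤ (1 + e) * (a n * c ^ n) * (Y (n + 1) / X (n + 1)) := by
    have h4 : ξ n * p n * Y (n + 1) =
        (x n * ξ n) * (p n * X n) * (Y (n + 1) / X (n + 1)) := by
      rw [hXs, hYs]
      have := (hXp n).ne'
      have := (hx n).ne'
      field_simp
    rw [h4, hpn]
    have h5 : 0 ≤ Y (n + 1) / X (n + 1) := div_nonneg (hYp _).le (hXp _).le
    have h6 : 0 ≤ a n * c ^ n := mul_nonneg (ha0 n) (by positivity)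
    exact mul_le_mul_of_nonneg_right (mul_le_mul_of_nonneg_right (hxξ n le_rfl) h6) h5
  have h4 : η n * q n * Y (n + 1) ≤ (1 + e) * (b n * c ^ n) := by
    have h5 : η n * q n * Y (n + 1) = (y n * η n) * (q n * Y n) := by
      rw [hYs]; ring
    rw [h5, hqn]
    have h6 : 0 ≤ b n * c ^ n := mul_nonneg (hb0 n) (by positivity)
    exact mul_le_mul_of_nonneg_right (hyη n le_rfl) h6
  have h5 : (ξ n * p n + η n * q n) * Y (n + 1) ≤
      (1 + e) * c ^ n * (a n * (Y (n + 1) / X (n + 1)) + b n) := by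
    have h6 : (1 + e) * c ^ n * (a n * (Y (n + 1) / X (n + 1)) + b n) =
        (1 + e) * (a n * c ^ n) * (Y (n + 1) / X (n + 1)) + (1 + e) * (b n * c ^ n) := by ring
    rw [h6, add_mul]
    exact add_le_add h3 h4
  have h6 : (1 + e) * c ^ n * (a n * (Y (n + 1) / X (n + 1)) + b n) ≤
      (1 + e) * c ^ n * (17 / 8) := by
    apply mul_le_mul_of_nonneg_left _ (by positivity)
    linarith
  have h7 : (1 + e) * c ^ n * (17 / 8) = (1 + e) ^ (n + 1) * (17 / 8) * (W ^ n) ^ 2 := by
    rw [hc, mul_pow]; ring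
  calc (ξ n * p n + η n * q n) * Y (n + 1) ≤ _ := h5
    _ ≤ _ := h6
    _ = _ := h7

theorem ttn_thm : TTNStmt := by
  intro d W E x y ξ η hx hy hξ hη hxξ hyη hE hWE hBal
  -- extend the sequences
  set x' : ℕ → ℝ := fun i => if h : i < d + 1 then x ⟨i, h⟩ else 1 with hx'
  set y' : ℕ → ℝ := fun i => if h : i < d + 1 then y ⟨i, h⟩ else 1 with hy'
  set ξ' : ℕ → ℝ := fun i => if h : i < d + 1 then ξ ⟨i, h⟩ else 0 with hξ'
  set η' : ℕ → ℝ := fun i => if h : i < d + 1 then η ⟨i, h⟩ else 0 with hη'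
  have hxx : ∀ i : Fin (d + 1), x' i = x i := fun i => by
    simp only [hx']; rw [dif_pos i.isLt]
  have hyy : ∀ i : Fin (d + 1), y' i = y i := fun i => by
    simp only [hy']; rw [dif_pos i.isLt]
  have hξξ : ∀ i : Fin (d + 1), ξ' i = ξ i := fun i => by
    simp only [hξ']; rw [dif_pos i.isLt]
  have hηη : ∀ i : Fin (d + 1), η' i = η i := fun i => by
    simp only [hη']; rw [dif_pos i.isLt]
  have hx0 : ∀ i, 0 < x' i := fun i => by
    simp only [hx']; split_ifs with h
    · exact hx _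
    · exact one_pos
  have hy0 : ∀ i, 0 < y' i := fun i => by
    simp only [hy']; split_ifs with h
    · exact hy _
    · exact one_pos
  have hξ0 : ∀ i, 0 ≤ ξ' i := fun i => by
    simp only [hξ']; split_ifs with h
    · exact hξ _
    · exact le_rfl
  have hη0 : ∀ i, 0 ≤ η' i := fun i => by
    simp only [hη']; split_ifs with h
    · exact hη _
    · exact le_rfl
  have hprod : ∀ (f : Fin (d + 1) → ℝ) (f' : ℕ → ℝ), (∀ i : Fin (d + 1), f' i = f i) →
      ∀ s t : ℕ, s ≤ t → t ≤ d + 1 →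
      (∏ i ∈ univ.filter (fun i : Fin (d + 1) => s ≤ (i : ℕ) ∧ (i : ℕ) < t), f i) *
        ∏ i ∈ range s, f' i = ∏ i ∈ range t, f' i := by
    intro f f' hf s t hst ht
    have h1 : ∏ i ∈ univ.filter (fun i : Fin (d + 1) => s ≤ (i : ℕ) ∧ (i : ℕ) < t), f i =
        ∏ i ∈ Ico s t, f' i := by
      refine Finset.prod_bij (fun i _ => (i : ℕ)) ?_ ?_ ?_ ?_
      · intro i hi
        simpa using (Finset.mem_filter.1 hi).2
      · intro i _ j _ hij
        exact Fin.ext hij
      · intro j hj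
        have hj' := Finset.mem_Ico.1 hj
        exact ⟨⟨j, by omega⟩, by simpa using hj', rfl⟩
      · intro i _
        exact (hf i).symm
    rw [h1, mul_comm, Finset.range_eq_Ico, Finset.range_eq_Ico,
      Finset.prod_Ico_consecutive _ (Nat.zero_le s) hst]
  have hfull : ∀ (f : Fin (d + 1) → ℝ) (f' : ℕ → ℝ), (∀ i : Fin (d + 1), f' i = f i) →
      ∏ i, f i = ∏ i ∈ range (d + 1), f' i := by
    intro f f' hf
    rw [Finset.prod_range]
    exact Finset.prod_congr rfl fun i _ => (hf i).symm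
  set e : ℝ := 1 / (8 * ((d : ℝ) + 1)) with he
  have he0 : 0 ≤ e := by positivity
  have hE0 : 0 < E := by linarith
  have hd0 : (0 : ℝ) ≤ d := Nat.cast_nonneg d
  have hW : 0 < W := lt_of_lt_of_le (by positivity) hWE
  have hcore := ttn_core d W E e hW hE he0 x' y' ξ' η' hx0 hy0 hξ0 hη0
    (by
      intro i hi
      have h1 := hxξ ⟨i, by omega⟩
      rw [← hxx, ← hξξ] at h1
      exact h1)
    (by
      intro i hi
      have h1 := hyη ⟨i, by omega⟩
      rw [← hyy, ← hηη] at h1
      exact h1)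
    hWE
    (by rw [← hfull y y' hyy, ← hfull x x' hxx]; exact hBal.1)
    (by
      intro s t hst ht
      rw [← hprod y y' hyy s t hst ht, ← hprod x x' hxx s t hst ht]
      have h1 := hBal.2 s t hst ht
      have h2 : 0 ≤ (∏ i ∈ range s, y' i) * ∏ i ∈ range s, x' i :=
        mul_nonneg (Finset.prod_nonneg fun i _ => (hy0 i).le)
          (Finset.prod_nonneg fun i _ => (hx0 i).le)
      have h3 := mul_le_mul_of_nonneg_right h1 h2
      calc _ = (∏ i ∈ univ.filter (fun i : Fin (d + 1) => s ≤ (i : ℕ) ∧ (i : ℕ) < t), y i) *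
            ((∏ i ∈ range s, y' i) * ∏ i ∈ range s, x' i) := by ring
        _ ≤ _ := h3
        _ = _ := by ring)
  have hpq : ttn_pq W ξ' η' d =
      pq W d (fun i => ξ i.castSucc) (fun i => η i.castSucc) := by
    unfold ttn_pq
    congr 1
    · funext i; exact hξξ i.castSucc
    · funext i; exact hηη i.castSucc
  rw [hpq, ← hfull y y' hyy] at hcore
  have hξd : ξ' d = ξ (Fin.last d) := hξξ (Fin.last d)
  have hηd : η' d = η (Fin.last d) := hηη (Fin.last d)
  rw [hξd, hηd] at hcore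
  refine lt_of_le_of_lt hcore ?_
  have hpow : (1 + e) ^ (d + 1) ≤ 5 / 4 := by
    have h1 : (1 + e) ^ (d + 1) ≤ Real.exp (1 / 8) := by
      have h2 : 1 + e ≤ Real.exp e := by linarith [Real.add_one_le_exp e]
      calc (1 + e) ^ (d + 1) ≤ (Real.exp e) ^ (d + 1) := pow_le_pow_left₀ (by positivity) h2 _
        _ = Real.exp (((d + 1 : ℕ) : ℝ) * e) := by rw [← Real.exp_nat_mul]
        _ = Real.exp (1 / 8) := by
            congr 1
            rw [he]; push_cast; field_simp
    have h3 : Real.exp (1 / 8) ≤ 5 / 4 := by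
      have h4 : Real.exp (1 / 8) = (Real.exp (-(1 / 8)))⁻¹ := by rw [Real.exp_neg, inv_inv]
      rw [h4, inv_le_comm₀ (Real.exp_pos _) (by norm_num)]
      have h5 := Real.add_one_le_exp (-(1 / 8) : ℝ)
      linarith
    linarith
  have hWd : 0 < (W ^ d) ^ 2 := by positivity
  have h1 : (1 + e) ^ (d + 1) * (17 / 8) < 3 := by linarith
  exact mul_lt_mul_of_pos_right h1 hWd

end Pool.Agent.H5.FR2
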